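import Mathlib

set_option autoImplicit false
set_option maxHeartbeats 400000

open Finset ComplexConjugate

namespace Pool.Agent.Results.MP_60133c_an.RealZeros

/-- the coefficient of `t^m` in `1/(Q(t) + z t^r)`, a rational function of `z` -/
noncomputable def P (Q : Polynomial ℝ) (r m : ℕ) : RatFunc ℝ :=
  PowerSeries.coeff m (((Q.map (algebraMap ℝ (RatFunc ℝ)) : Polynomial (RatFunc ℝ)) :
    PowerSeries (RatFunc ℝ)) + PowerSeries.C RatFunc.X * PowerSeries.X ^ r)⁻¹

def H {A : Type} [CommRing A] (x : ℕ → A) (w : A) (n r : ℕ) : ℕ → ℕ → A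
  | 0, _ => 1
  | m + 1, i => ∑ j ∈ Ico i n, x j * H x w n r m j +
      if _ : r = 0 then w * ∑ j ∈ range i, x j * H x w n r m j
      else if r ≤ m + 1 then w * H x w n r (m + 1 - r) 0 else 0
decreasing_by all_goals first | omega | (apply Prod.Lex.left; omega)

theorem Hmap {A B : Type} [CommRing A] [CommRing B] (φ : A →+* B) (x : ℕ → A) (w : A) (n r m : ℕ) :
    ∀ i, φ (H x w n r m i) = H (fun j => φ (x j)) (φ w) n r m i := by
  induction m using Nat.strong_induction_on with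
  | _ m ih =>
  intro i
  cases m with
  | zero => simp [H]
  | succ m =>
    rw [H, H, map_add, map_sum]
    simp only [map_mul, ih m (by omega)]
    congr 1
    split_ifs with h1 h2
    · simp [map_sum, ih m (by omega)]
    · rw [map_mul, ih _ (by omega)]
    · simp

open PowerSeries in
theorem Hser {K : Type} [Field K] (x : ℕ → K) (w : K) (n r : ℕ) (hD : 1 - w * 0 ^ r ≠ 0) (m : ℕ) :
    coeff m (∏ j ∈ range n, (1 - C (x j) * X) - C w * X ^ r)⁻¹ =
      H x w n r m 0 / (1 - w * 0 ^ r) ^ (m + 1) := by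
  have c0 : ∀ i, constantCoeff (∏ j ∈ range i, (1 - C (x j) * X : K⟦X⟧)) = 1 := fun i => by
    simp [map_prod]
  have c1 : constantCoeff (∏ j ∈ range n, (1 - C (x j) * X) - C w * X ^ r : K⟦X⟧) = 1 - w * 0 ^ r := by
    simp [c0]
  have e := PowerSeries.mul_inv_cancel _ (c1 ▸ hD)
  have e0 := constantCoeff_inv (∏ j ∈ range n, (1 - C (x j) * X) - C w * X ^ r : K⟦X⟧)
  rw [c1] at e0
  generalize (∏ j ∈ range n, (1 - C (x j) * X) - C w * X ^ r : K⟦X⟧)⁻¹ = G at *
  let f : ℕ → ℕ → K := fun m i => coeff m ((∏ j ∈ range i, (1 - C (x j) * X)) * G)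
  have r1 : ∀ m i, f (m + 1) i = x i * f m i + f (m + 1) (i + 1) := fun m i => by
    simp only [f, prod_range_succ]
    generalize (∏ j ∈ range i, (1 - C (x j) * X : K⟦X⟧)) = U
    rw [show U * (1 - C (x i) * X) * G = U * G - C (x i) * (U * G * X) by ring, map_sub,
      coeff_C_mul, coeff_succ_mul_X]; ring
  have r2' : ∀ m i k, i ≤ k → f (m + 1) i = ∑ j ∈ Ico i k, x j * f m j + f (m + 1) k := by
    intro m i k hi
    induction k, hi using Nat.le_induction with
    | base => simp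
    | succ k hk ih => rw [sum_Ico_succ_top hk, ih, r1 m k, add_assoc]
  have r2 := fun m i => r2' m i n
  have r3 : ∀ m, f (m + 1) n = if r ≤ m + 1 then w * f (m + 1 - r) 0 else 0 := fun m => by
    simp only [f]
    rw [show (∏ j ∈ range n, (1 - C (x j) * X)) * G = 1 + C w * (X ^ r * G) by
      linear_combination e, map_add, coeff_C_mul, coeff_X_pow_mul']
    simp [coeff_one]
  suffices ∀ i ≤ n, f m i = H x w n r m i / (1 - w * 0 ^ r) ^ (m + 1) by
    simpa [f] using this 0 (by omega)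
  induction m using Nat.strong_induction_on with
  | _ m ih =>
  intro i hi
  cases m with
  | zero => simp [f, c0, e0, H]
  | succ m =>
    have s : ∀ a b, b ≤ n → ∑ j ∈ Ico a b, x j * f m j =
        (∑ j ∈ Ico a b, x j * H x w n r m j) / (1 - w * 0 ^ r) ^ (m + 1) := fun a b hb => by
      rw [sum_div]; refine sum_congr rfl fun j hj => ?_
      rw [ih m (by omega) j (by simp at hj; omega), mul_div_assoc]
    rw [H]
    by_cases h : r = 0
    · subst h
      have a := r2 m 0 (by omega)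
      have b := r2 m i hi
      rw [r3, if_pos (by omega), Nat.sub_zero, s _ _ le_rfl] at a b
      rw [← sum_Ico_consecutive _ (Nat.zero_le i) hi] at a
      rw [dif_pos rfl, range_eq_Ico, b]
      simp only [pow_zero, mul_one] at *
      have : f (m + 1) 0 = (∑ j ∈ Ico 0 i, x j * H x w n 0 m j + ∑ j ∈ Ico i n, x j * H x w n 0 m j) /
          (1 - w) ^ (m + 1) / (1 - w) := by
        rw [eq_div_iff hD]; linear_combination a
      rw [this]; field_simp; ring
    · rw [dif_neg h, r2 m i hi, r3, s _ _ le_rfl]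
      split_ifs with h2
      · rw [ih _ (by omega) 0 (by omega)]; simp [h]
      · simp [h]

structure Good (w : ℂ) (R : ℂ → ℂ → Prop) : Prop where
  addl : ∀ {u u' v}, R u v → R u' v → R (u + u') v
  addr : ∀ {u v v'}, R u v → R u v' → R u (v + v')
  smul : ∀ {u v} {a b : ℝ}, 0 ≤ a → 0 ≤ b → R u v → R (a * u) (b * v)
  cyc : ∀ {u v}, R u v → R v (w * u)
  sl : ∀ {u v}, R u v → R u u
  sr : ∀ {u v}, R u v → R v v
  one : R 1 1
  ne : ∀ {u v}, u ≠ 0 → R u v → u + v ≠ 0

variable {w : ℂ} {R : ℂ → ℂ → Prop}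

theorem Good.zl (g : Good w R) {v : ℂ} (h : R v v) : R 0 v := by
  simpa using g.smul le_rfl zero_le_one h
theorem Good.zr (g : Good w R) {v : ℂ} (h : R v v) : R v 0 := by
  simpa using g.smul zero_le_one le_rfl h

theorem Good.suml (g : Good w R) {v : ℂ} (s : Finset ℕ) (u : ℕ → ℂ) (h : ∀ j ∈ s, R (u j) v)
    (hv : R v v) : R (∑ j ∈ s, u j) v :=
  sum_induction u (fun a => R a v) (fun _ _ => g.addl) (g.zl hv) h

theorem Good.sumr (g : Good w R) {v : ℂ} (s : Finset ℕ) (u : ℕ → ℂ) (h : ∀ j ∈ s, R v (u j))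
    (hv : R v v) : R v (∑ j ∈ s, u j) :=
  sum_induction u (fun a => R v a) (fun _ _ => g.addr) (g.zr hv) h

theorem Good.ss (g : Good w R) (s t : Finset ℕ) (u : ℕ → ℂ) (h : ∀ i ∈ s, ∀ j ∈ t, R (u i) (u j))
    (hs : ∀ i ∈ s, R (u i) (u i)) (ht : R (∑ j ∈ t, u j) (∑ j ∈ t, u j)) :
    R (∑ j ∈ s, u j) (∑ j ∈ t, u j) :=
  g.suml _ _ (fun i hi => g.sumr _ _ (h i hi) (hs i hi)) ht

theorem Good.self (g : Good w R) (u : ℕ → ℂ) (a b : ℕ)
    (h : ∀ i j, i ≤ j → j < b → R (u i) (u j)) : R (∑ j ∈ Ico a b, u j) (∑ j ∈ Ico a b, u j) := by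
  rcases lt_or_ge a b with hab | hab
  · exact g.sr (g.sumr _ _ (fun j hj => by simp at hj; exact h a j hj.1 hj.2) (h a a le_rfl hab))
  · rw [Ico_eq_empty_of_le hab, sum_empty]; exact g.sl (g.zl g.one)

theorem Good.blk (g : Good w R) (u : ℕ → ℂ) (n : ℕ) (h : ∀ i j, i ≤ j → j < n → R (u i) (u j))
    {a b c d : ℕ} (h1 : b ≤ c) (h2 : b ≤ n) (h3 : d ≤ n) :
    R (∑ j ∈ Ico a b, u j) (∑ j ∈ Ico c d, u j) :=
  g.ss _ _ u (fun i hi j hj => by simp at hi hj; exact h i j (by omega) (by omega))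
    (fun i hi => by simp at hi; exact h i i le_rfl (by omega))
    (g.self u c d fun i j hij hj => h i j hij (by omega))

theorem zero_case (g : Good w R) (x : ℕ → ℝ) (hx : ∀ j, 0 < x j) (n m : ℕ) :
    (∀ i j, i ≤ j → j < n → R (H (fun j => (x j : ℂ)) w n 0 m i) (H (fun j => (x j : ℂ)) w n 0 m j)) ∧
      ∀ i < n, H (fun j => (x j : ℂ)) w n 0 m i ≠ 0 := by
  induction m with
  | zero => simp [H, g.one]
  | succ m ih =>
    simp only [H, dif_pos, range_eq_Ico]
    obtain ⟨h, h0⟩ := ih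
    set u : ℕ → ℂ := fun j => x j * H (fun j => (x j : ℂ)) w n 0 m j with hu
    have hu' : ∀ i j, i ≤ j → j < n → R (u i) (u j) := fun i j a b =>
      g.smul (hx i).le (hx j).le (h i j a b)
    have key : ∀ i j, i ≤ j → j ≤ n →
        R (∑ k ∈ Ico i j, u k) (∑ k ∈ Ico j n, u k + w * ∑ k ∈ Ico 0 i, u k) := fun i j a b =>
      g.addr (g.blk u n hu' le_rfl b le_rfl) (g.cyc (g.blk u n hu' le_rfl (by omega) b))
    refine ⟨fun i j a b => ?_, fun i hi => ?_⟩
    · have k := key i j a b.le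
      rw [← sum_Ico_consecutive u a b.le, ← sum_Ico_consecutive u (Nat.zero_le i) a, mul_add,
        add_assoc, ← add_assoc (∑ k ∈ Ico j n, u k)]
      exact g.addl (g.addr k (g.cyc (g.sl k))) (g.addr (g.sr k) (g.cyc k))
    · have k := key i (i + 1) (by omega) hi
      rw [← sum_Ico_consecutive u (Nat.le_succ i) hi, add_assoc]
      refine g.ne ?_ k
      simp [hu, (hx i).ne', h0 i hi]

theorem pos_case (g : Good w R) (x : ℕ → ℝ) (hx : ∀ j, 0 < x j) (n r : ℕ) (hn : 0 < n) (hr : r ≠ 0)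
    (m : ℕ) :
    (∀ i j, i ≤ j → j < n → R (H (fun j => (x j : ℂ)) w n r m i) (H (fun j => (x j : ℂ)) w n r m j)) ∧
      (∀ k ≤ m, m < k + r → ∀ i < n,
        R (H (fun j => (x j : ℂ)) w n r k 0) (H (fun j => (x j : ℂ)) w n r m i)) ∧
      ∀ i < n, H (fun j => (x j : ℂ)) w n r m i ≠ 0 := by
  induction m using Nat.strong_induction_on with
  | _ m ih =>
  cases m with
  | zero => simp [H, g.one]
  | succ m =>
    obtain ⟨h, hB, h0⟩ := ih m (by omega)
    set u : ℕ → ℂ := fun j => x j * H (fun j => (x j : ℂ)) w n r m j with hu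
    set e := if r ≤ m + 1 then w * H (fun j => (x j : ℂ)) w n r (m + 1 - r) 0 else 0 with he
    have E : ∀ i, H (fun j => (x j : ℂ)) w n r (m + 1) i = ∑ j ∈ Ico i n, u j + e := fun i => by
      rw [H, dif_neg hr]
    have hu' : ∀ i j, i ≤ j → j < n → R (u i) (u j) := fun i j a b =>
      g.smul (hx i).le (hx j).le (h i j a b)
    have ue : ∀ j < n, R (u j) e := fun j hj => by
      rw [he]; split_ifs with h2
      · simpa using g.smul (hx j).le zero_le_one (g.cyc (hB _ (by omega) (by omega) j hj))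
      · exact g.zr (hu' j j le_rfl hj)
    have key : ∀ i j, j ≤ n → R (∑ k ∈ Ico i j, u k) (∑ k ∈ Ico j n, u k + e) := fun i j b =>
      g.addr (g.blk u n hu' le_rfl b le_rfl)
        (g.suml _ _ (fun k hk => ue k (by simp at hk; omega)) (g.sr (ue 0 hn)))
    have A : ∀ i j, i ≤ j → j < n → R (H (fun j => (x j : ℂ)) w n r (m + 1) i)
        (H (fun j => (x j : ℂ)) w n r (m + 1) j) := fun i j a b => by
      rw [E, E, ← sum_Ico_consecutive u a b.le, add_assoc]
      exact g.addl (key i j b.le) (g.sr (key i j b.le))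
    refine ⟨A, fun k hk hk' i hi => ?_, fun i hi => ?_⟩
    · rcases hk.eq_or_lt with rfl | hk
      · exact A 0 i (by omega) hi
      have b := hB k (by omega) (by omega)
      rw [E]
      refine g.addr (g.sumr _ _ (fun j hj => ?_) (g.sl (b 0 hn))) ?_
      · simpa using g.smul zero_le_one (hx j).le (b j (by simp at hj; omega))
      · rw [he]; split_ifs with h2
        · exact g.cyc ((ih k hk).2.1 _ (by omega) (by omega) 0 hn)
        · exact g.zr (g.sl (b 0 hn))
    · rw [E, ← sum_Ico_consecutive u (Nat.le_succ i) hi, add_assoc]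
      refine g.ne ?_ (key i (i + 1) hi)
      simp [hu, (hx i).ne', h0 i hi]

theorem good (w : ℂ) (h : ¬(w.im = 0 ∧ w.re < 0)) : ∃ R, Good w R := by
  by_cases h0 : w.im = 0
  · have h1 : 0 ≤ w.re := not_lt.1 fun h' => h ⟨h0, h'⟩
    refine ⟨fun u v => (u.im = 0 ∧ 0 ≤ u.re) ∧ v.im = 0 ∧ 0 ≤ v.re, ?_, ?_, ?_, ?_, ?_, ?_, ?_, ?_⟩
    · rintro u u' v ⟨⟨a, b⟩, c⟩ ⟨⟨a', b'⟩, -⟩; exact ⟨⟨by simp [a, a'], by simp; linarith⟩, c⟩
    · rintro u v v' ⟨c, a, b⟩ ⟨-, a', b'⟩; exact ⟨c, by simp [a, a'], by simp; linarith⟩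
    · rintro u v a b ha hb ⟨⟨c, d⟩, e, f⟩; simp [c, e, mul_nonneg ha d, mul_nonneg hb f]
    · rintro u v ⟨⟨c, d⟩, e⟩; exact ⟨e, by simp [c, h0], by simp [c, mul_nonneg h1 d]⟩
    · exact fun h => ⟨h.1, h.1⟩
    · exact fun h => ⟨h.2, h.2⟩
    · simp
    · rintro u v hu ⟨⟨a, b⟩, c, d⟩ e
      have := congrArg Complex.re e
      simp at this
      exact hu (Complex.ext (by simp; linarith) a)
  · have p : 0 < w.im * w.im := mul_self_pos.2 h0
    have s : ∀ u : ℂ, 0 ≤ w.im * (conj u * u).im ∧ 0 ≤ w.im * (conj u * (w * u)).im := fun u => by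
      simp; constructor <;> nlinarith [mul_nonneg p.le (add_nonneg (mul_self_nonneg u.re) (mul_self_nonneg u.im))]
    refine ⟨fun u v => 0 ≤ w.im * (conj u * v).im ∧ 0 ≤ w.im * (conj v * (w * u)).im,
      ?_, ?_, ?_, ?_, fun _ => s _, fun _ => s _, s 1, ?_⟩
    · rintro u u' v ⟨a, b⟩ ⟨c, d⟩; simp at *; constructor <;> linarith
    · rintro u u' v ⟨a, b⟩ ⟨c, d⟩; simp at *; constructor <;> linarith
    · rintro u v a b ha hb ⟨c, d⟩
      have := mul_nonneg (mul_nonneg ha hb) c; have := mul_nonneg (mul_nonneg ha hb) d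
      simp at *; constructor <;> linarith
    · rintro u v ⟨c, d⟩
      have := mul_nonneg (add_nonneg (mul_self_nonneg w.re) p.le) c
      refine ⟨d, ?_⟩
      simp at *; linarith
    · rintro u v hu ⟨-, d⟩ e
      obtain rfl : v = -u := by linear_combination e
      have := mul_pos p (Complex.normSq_pos.2 hu)
      rw [Complex.normSq_apply] at this
      simp at d; linarith

open Polynomial in
theorem fac (n : ℕ) : ∀ Q : ℝ[X], Q.natDegree = n → Q.eval 0 ≠ 0 →
    (∀ z : ℂ, aeval z Q = 0 → ∃ a : ℝ, 0 < a ∧ z = a) →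
    ∃ x : ℕ → ℝ, (∀ j, 0 < x j) ∧ Q = C (Q.eval 0) * ∏ j ∈ range n, (1 - C (x j) * X) := by
  induction n with
  | zero =>
    intro Q h _ _
    exact ⟨fun _ => 1, fun _ => one_pos, by rw [eq_C_of_natDegree_eq_zero h]; simp⟩
  | succ n ih =>
    intro Q h h0 hz
    obtain ⟨z, e⟩ := IsAlgClosed.exists_aeval_eq_zero ℂ Q
      (natDegree_pos_iff_degree_pos.1 (by omega)).ne'
    obtain ⟨a, ha, rfl⟩ := hz z e
    rw [show (a : ℂ) = algebraMap ℝ ℂ a from rfl, aeval_algebraMap_apply_eq_algebraMap_eval,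
      map_eq_zero] at e
    obtain ⟨Q1, rfl⟩ := dvd_iff_isRoot.2 e
    have q : Q1.eval 0 ≠ 0 := fun h => h0 (by simp [h])
    rw [natDegree_mul (X_sub_C_ne_zero a) (by rintro rfl; simp at q), natDegree_X_sub_C] at h
    obtain ⟨x, hx, e1⟩ := ih Q1 (by omega) q fun z h => hz z (by simp [h])
    refine ⟨Function.update x n a⁻¹, fun j => ?_, ?_⟩
    · by_cases hj : j = n
      · simp [hj, ha]
      · simp [hj, hx]
    rw [prod_range_succ, prod_congr rfl fun j hj => by
      rw [Function.update_of_ne (mem_range.1 hj).ne], Function.update_self]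
    have : (C a * C a⁻¹ : ℝ[X]) = 1 := by rw [← C_mul, mul_inv_cancel₀ ha.ne', C_1]
    conv_lhs => rw [e1]
    simp only [eval_mul, eval_sub, eval_X, eval_C, zero_sub, C_mul, C_neg]
    linear_combination (-X * C (eval 0 Q1) * ∏ j ∈ range n, (1 - C (x j) * X)) * this

theorem result (Q : Polynomial ℝ) (hd : 0 < Q.natDegree) (h0 : 0 < Q.eval 0)
    (hz : ∀ z : ℂ, Polynomial.aeval z Q = 0 → ∃ a : ℝ, 0 < a ∧ z = a) (r m : ℕ) (z : ℂ)
    (h : Polynomial.aeval z (P Q r m).num = 0) : ∃ a : ℝ, 0 < a ∧ z = a := by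
  obtain ⟨x, hx, e⟩ := fac _ Q rfl h0.ne' hz
  generalize Q.eval 0 = q at *
  generalize Q.natDegree = n at *
  let W : Polynomial ℝ := Polynomial.C (-q⁻¹) * Polynomial.X
  have D0 : (1 - W * 0 ^ r : Polynomial ℝ) ≠ 0 := fun h => by
    simpa [W] using congrArg (Polynomial.eval 0) h
  let φ := algebraMap (Polynomial ℝ) (RatFunc ℝ)
  have D1 : 1 - φ W * 0 ^ r ≠ 0 := by
    simpa using (map_ne_zero_iff φ (RatFunc.algebraMap_injective ℝ)).2 D0
  have q1 : φ (Polynomial.C q) * φ W = -RatFunc.X := by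
    rw [← map_mul, ← mul_assoc, ← Polynomial.C_mul]; simp [φ, h0.ne']
  have : P Q r m = φ (H (fun j => Polynomial.C (x j)) W n r m 0) /
      φ ((1 - W * 0 ^ r) ^ (m + 1) * Polynomial.C q) := by
    have s : (((Q.map (algebraMap ℝ (RatFunc ℝ)) : Polynomial (RatFunc ℝ)) :
        PowerSeries (RatFunc ℝ)) + PowerSeries.C RatFunc.X * PowerSeries.X ^ r) =
        PowerSeries.C (φ (Polynomial.C q)) * (∏ j ∈ range n, (1 - PowerSeries.C (φ (Polynomial.C (x j)))
          * PowerSeries.X) - PowerSeries.C (φ W) * PowerSeries.X ^ r) := by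
      rw [mul_sub, ← mul_assoc, ← map_mul, q1, e, ← Polynomial.coeToPowerSeries.ringHom_apply]
      simp [Polynomial.map_prod, map_prod, φ]
      left
      rw [← Polynomial.coeToPowerSeries.ringHom_apply, map_prod]; simp
    rw [P, s, PowerSeries.mul_inv_rev, PowerSeries.C_inv, PowerSeries.coeff_mul_C, Hser _ _ _ _ D1,
      Hmap, map_mul φ (_ ^ _), ← div_div, div_eq_mul_inv _ (φ _)]
    simp
  rw [this] at h
  have d := RatFunc.num_div_dvd (H (fun j => Polynomial.C (x j)) W n r m 0)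
    (mul_ne_zero (pow_ne_zero (m + 1) D0) (Polynomial.C_ne_zero.2 h0.ne'))
  have h2 := Hmap (Polynomial.aeval z).toRingHom (fun j => Polynomial.C (x j)) W n r m 0
  obtain ⟨c, hc⟩ := d
  rw [hc, map_mul, show (Polynomial.aeval z).toRingHom _ = 0 from h, zero_mul] at h2
  have e2 : (fun j => (Polynomial.aeval z).toRingHom (Polynomial.C (x j))) = fun j => (x j : ℂ) := by
    funext j; simp
  rw [e2] at h2
  by_contra hne
  obtain ⟨R, g⟩ := good ((Polynomial.aeval z).toRingHom W) (by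
    rintro ⟨a, b⟩
    have : (Polynomial.aeval z).toRingHom W = ((-q⁻¹ : ℝ) : ℂ) * z := by simp [W]
    rw [this, Complex.im_ofReal_mul] at a
    rw [this, Complex.re_ofReal_mul] at b
    have := inv_pos.2 h0
    exact hne ⟨z.re, by nlinarith, Complex.ext rfl (by simpa [h0.ne'] using a)⟩)
  by_cases hr : r = 0
  · subst hr; exact (zero_case g x hx n m).2 0 hd h2.symm
  · exact (pos_case g x hx n r hd hr m).2.2 0 hd h2.symm

end Pool.Agent.Results.MP_60133c_an.RealZeros
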